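import Pool.Agent.Q286.GB.Stm2

/-!
# Project GB (helper286), jobs SLW and OBJ
-/

set_option autoImplicit false

namespace Pool.Agent.Q182.GB

open Complex MeasureTheory Filter Topology Set
open scoped ComplexConjugate
open Pool.Agent.Q286.GB

theorem lin_quad (A x δ : ℝ) (hδ : 0 < δ) : A * x ≤ δ * x ^ 2 + A ^ 2 / (4 * δ) := by
  have h1 : δ * x ^ 2 + A ^ 2 / (4 * δ) - A * x = δ * (x - A / (2 * δ)) ^ 2 := by
    field_simp
    ring
  have h2 : 0 ≤ δ * (x - A / (2 * δ)) ^ 2 := by positivity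
  linarith

theorem norm_Gamma_le {z : ℂ} (hz : 0 < z.re) : ‖Complex.Gamma z‖ ≤ Real.Gamma z.re := by
  rw [Complex.Gamma_eq_integral hz, Complex.GammaIntegral, Real.Gamma_eq_integral hz]
  refine (norm_integral_le_integral_norm _).trans_eq ?_
  apply setIntegral_congr_fun measurableSet_Ioi
  intro x hx
  have hx : 0 < x := hx
  simp only [norm_mul, Complex.norm_real, Real.norm_of_nonneg (Real.exp_pos _).le]
  rw [Complex.norm_cpow_eq_rpow_re_of_pos hx]
  simp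

/-- growth of the gamma function -/
theorem gamma_add_two (δ : ℝ) (hδ : 0 < δ) : ∃ K : ℝ, 0 < K ∧ ∀ x : ℝ, 0 < x →
    Real.Gamma (x + 2) ≤ K * Real.exp (δ * x ^ 2) := by
  set ε := δ / 4 with hε
  have hε0 : 0 < ε := by positivity
  refine ⟨Real.exp (16 * ε + (|Real.log ε|) ^ 2 / (4 * ε)), Real.exp_pos _, fun x hx => ?_⟩
  set p : ℕ := ⌈x⌉₊ + 1 with hp
  have hp1 : (1 : ℝ) ≤ p := by
    rw [hp]
    push_cast
    have : (0 : ℝ) ≤ (⌈x⌉₊ : ℝ) := Nat.cast_nonneg _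
    linarith
  have hpx : (p : ℝ) ≤ x + 2 := by
    rw [hp]
    push_cast
    have := Nat.ceil_lt_add_one hx.le
    linarith
  have hpx2 : x + 2 ≤ (p : ℝ) + 1 := by
    rw [hp]
    push_cast
    have := Nat.le_ceil x
    linarith
  have h1 : Real.Gamma (x + 2) ≤ Real.Gamma ((p : ℝ) + 1) :=
    Real.Gamma_strictMonoOn_Ici.monotoneOn (by simp only [mem_Ici]; linarith)
      (by simp only [mem_Ici]; linarith) hpx2
  rw [Real.Gamma_nat_eq_factorial] at h1
  have h2 : (p.factorial : ℝ) ≤ (p : ℝ) ^ p := by exact_mod_cast Nat.factorial_le_pow p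
  have h3 : (p : ℝ) ^ p = Real.exp (p * Real.log p) := by
    rw [Real.exp_nat_mul, Real.exp_log (by linarith)]
  have h4 : Real.log p ≤ ε * p + |Real.log ε| := by
    have h5 := Real.log_le_sub_one_of_pos (show 0 < ε * p by positivity)
    rw [Real.log_mul hε0.ne' (by linarith)] at h5
    have h6 := neg_abs_le (Real.log ε)
    linarith
  have h7 : (p : ℝ) * Real.log p ≤ 16 * ε + (|Real.log ε|) ^ 2 / (4 * ε) + δ * x ^ 2 := by
    have h8 : (p : ℝ) * Real.log p ≤ p * (ε * p + |Real.log ε|) :=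
      mul_le_mul_of_nonneg_left h4 (by linarith)
    have h9 := lin_quad (|Real.log ε|) p ε hε0
    have h10 : (p : ℝ) ^ 2 ≤ 2 * x ^ 2 + 8 := by nlinarith [sq_nonneg (x - 2)]
    have h11 : 2 * ε * (p : ℝ) ^ 2 ≤ 2 * ε * (2 * x ^ 2 + 8) :=
      mul_le_mul_of_nonneg_left h10 (by positivity)
    have h12 : δ = 4 * ε := by rw [hε]; ring
    rw [h12]
    nlinarith
  calc Real.Gamma (x + 2) ≤ (p.factorial : ℝ) := h1
    _ ≤ Real.exp (p * Real.log p) := by rw [← h3]; exact h2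
    _ ≤ Real.exp (16 * ε + (|Real.log ε|) ^ 2 / (4 * ε) + δ * x ^ 2) := Real.exp_le_exp.mpr h7
    _ = _ := by rw [Real.exp_add]

/-- slow growth on a half-plane -/
def Slow (g : ℂ → ℝ) : Prop := ∀ δ : ℝ, 0 < δ → ∃ K : ℝ, 0 < K ∧ ∀ s : ℂ, 1 / 2 ≤ s.re →
  g s ≤ K * Real.exp (δ * ‖s‖ ^ 2)

theorem Slow.mul {f g : ℂ → ℝ} (hf : Slow f) (hg : Slow g) (hg0 : ∀ s, 0 ≤ g s) :
    Slow fun s => f s * g s := by
  intro δ hδ
  obtain ⟨K, hK, h1⟩ := hf (δ / 2) (by positivity)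
  obtain ⟨K', hK', h2⟩ := hg (δ / 2) (by positivity)
  refine ⟨K * K', by positivity, fun s hs => ?_⟩
  refine (mul_le_mul (h1 s hs) (h2 s hs) (hg0 s) (by positivity)).trans (le_of_eq ?_)
  have : Real.exp (δ * ‖s‖ ^ 2) = Real.exp (δ / 2 * ‖s‖ ^ 2) * Real.exp (δ / 2 * ‖s‖ ^ 2) := by
    rw [← Real.exp_add]
    congr 1
    ring
  rw [this]
  ring

theorem Slow.prod {ι : Type*} (t : Finset ι) (f : ι → ℂ → ℝ) (hf : ∀ i ∈ t, Slow (f i))
    (hf0 : ∀ i s, 0 ≤ f i s) : Slow fun s => ∏ i ∈ t, f i s := by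
  classical
  induction t using Finset.induction_on with
  | empty =>
    intro δ hδ
    refine ⟨1, one_pos, fun s _ => ?_⟩
    show ∏ i ∈ (∅ : Finset ι), f i s ≤ _
    rw [Finset.prod_empty, one_mul]
    exact Real.one_le_exp (by positivity)
  | insert a t ha ih =>
    have h1 := (hf a (Finset.mem_insert_self _ _)).mul
      (ih fun i hi => hf i (Finset.mem_insert_of_mem hi)) (fun s => Finset.prod_nonneg fun i _ => hf0 i s)
    intro δ hδ
    obtain ⟨K, hK, h2⟩ := h1 δ hδ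
    refine ⟨K, hK, fun s hs => ?_⟩
    show ∏ i ∈ insert a t, f i s ≤ _
    rw [Finset.prod_insert ha]
    exact h2 s hs

theorem slow_expn (A : ℝ) : Slow fun s => Real.exp (A * ‖s‖) := by
  intro δ hδ
  refine ⟨Real.exp (A ^ 2 / (4 * δ)), Real.exp_pos _, fun s _ => ?_⟩
  rw [← Real.exp_add]
  apply Real.exp_le_exp.mpr
  have := lin_quad A ‖s‖ δ hδ
  linarith

theorem Slow.mono {f g : ℂ → ℝ} (hg : Slow g) (C : ℝ) (hC : 0 ≤ C)
    (h : ∀ s : ℂ, 1 / 2 ≤ s.re → f s ≤ C * g s) : Slow f := by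
  intro δ hδ
  obtain ⟨K, hK, h1⟩ := hg δ hδ
  refine ⟨(C + 1) * K, by positivity, fun s hs => ?_⟩
  calc f s ≤ C * g s := h s hs
    _ ≤ C * (K * Real.exp (δ * ‖s‖ ^ 2)) := mul_le_mul_of_nonneg_left (h1 s hs) hC
    _ ≤ (C + 1) * K * Real.exp (δ * ‖s‖ ^ 2) := by
      have : 0 ≤ K * Real.exp (δ * ‖s‖ ^ 2) := by positivity
      nlinarith

theorem slow_cpow (N : ℝ) (hN : 0 < N) : Slow fun s => ‖(N : ℂ) ^ (s / 2)‖ := by
  refine (slow_expn (|Real.log N|)).mono 1 zero_le_one fun s _ => ?_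
  rw [one_mul, Complex.norm_cpow_eq_rpow_re_of_pos hN, Real.rpow_def_of_pos hN]
  apply Real.exp_le_exp.mpr
  have e : (s / 2).re = s.re / 2 := by
    rw [show (2 : ℂ) = ((2 : ℝ) : ℂ) by norm_num, Complex.div_ofReal_re]
  rw [e]
  have h1 : |s.re / 2| ≤ ‖s‖ := by
    rw [abs_div, abs_of_pos (by norm_num : (0 : ℝ) < 2)]
    have := Complex.abs_re_le_norm s
    have := norm_nonneg s
    linarith
  calc Real.log N * (s.re / 2) ≤ |Real.log N * (s.re / 2)| := le_abs_self _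
    _ = |Real.log N| * |s.re / 2| := abs_mul _ _
    _ ≤ |Real.log N| * ‖s‖ := mul_le_mul_of_nonneg_left h1 (abs_nonneg _)

theorem slow_gammaR (μ : ℂ) (hμ : μ.re < 1 / 2) : Slow fun s => ‖Gammaℝ (s - μ)‖ := by
  intro δ hδ
  set c := 1 / 2 - μ.re with hc
  have hc0 : 0 < c := by linarith
  obtain ⟨K, hK, hG⟩ := gamma_add_two (δ / 2) (by positivity)
  refine ⟨2 / c * K * Real.exp (δ / 4 * ‖μ‖ ^ 2), by positivity, fun s hs => ?_⟩
  set z := s - μ with hz
  have hzre : c ≤ z.re := by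
    rw [hz, Complex.sub_re]
    linarith
  have e : (z / 2).re = z.re / 2 := by
    rw [show (2 : ℂ) = ((2 : ℝ) : ℂ) by norm_num, Complex.div_ofReal_re]
  set x := z.re / 2 with hx
  have hx0 : 0 < x := by rw [hx]; linarith
  have h3 := norm_Gamma_le (z := z / 2) (by rw [e]; exact hx0)
  rw [e] at h3
  have h5 : Real.pi ^ (-z / 2).re ≤ 1 := by
    apply Real.rpow_le_one_of_one_le_of_nonpos (by linarith [Real.pi_gt_three])
    have e2 : (-z / 2).re = -(z.re / 2) := by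
      rw [show (2 : ℂ) = ((2 : ℝ) : ℂ) by norm_num, Complex.div_ofReal_re, neg_re]
      ring
    rw [e2]
    linarith
  have h6 : ‖Gammaℝ z‖ ≤ Real.Gamma x := by
    rw [Gammaℝ_def, norm_mul, Complex.norm_cpow_eq_rpow_re_of_pos Real.pi_pos]
    calc Real.pi ^ (-z / 2).re * ‖Gamma (z / 2)‖ ≤ 1 * Real.Gamma x :=
          mul_le_mul h5 h3 (norm_nonneg _) zero_le_one
      _ = Real.Gamma x := one_mul _
  have h7 : Real.Gamma (x + 2) = (x + 1) * (x * Real.Gamma x) := by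
    rw [show x + 2 = (x + 1) + 1 by ring, Real.Gamma_add_one (by linarith), Real.Gamma_add_one hx0.ne']
  have hGx : 0 < Real.Gamma x := Real.Gamma_pos_of_pos hx0
  have h8 : Real.Gamma x ≤ 2 / c * Real.Gamma (x + 2) := by
    rw [h7, div_mul_eq_mul_div, le_div_iff₀ hc0]
    have h9 : c ≤ 2 * x := by rw [hx]; linarith
    have h10 : 0 ≤ x * Real.Gamma x := by positivity
    nlinarith
  have h11 := hG x hx0
  have h12 : x ^ 2 ≤ (‖s‖ ^ 2 + ‖μ‖ ^ 2) / 2 := by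
    have h13 : |z.re| ≤ ‖s‖ + ‖μ‖ := (Complex.abs_re_le_norm z).trans (norm_sub_le _ _)
    have h14 : z.re ^ 2 ≤ (‖s‖ + ‖μ‖) ^ 2 := by
      rw [← sq_abs]
      exact pow_le_pow_left₀ (abs_nonneg _) h13 2
    rw [hx]
    nlinarith [sq_nonneg (‖s‖ - ‖μ‖)]
  calc ‖Gammaℝ z‖ ≤ Real.Gamma x := h6
    _ ≤ 2 / c * Real.Gamma (x + 2) := h8
    _ ≤ 2 / c * (K * Real.exp (δ / 2 * x ^ 2)) := mul_le_mul_of_nonneg_left h11 (by positivity)
    _ ≤ 2 / c * (K * Real.exp (δ / 4 * ‖μ‖ ^ 2 + δ * ‖s‖ ^ 2)) := by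
        refine mul_le_mul_of_nonneg_left (mul_le_mul_of_nonneg_left (Real.exp_le_exp.mpr ?_) hK.le)
          (by positivity)
        have h15 : δ / 2 * x ^ 2 ≤ δ / 2 * ((‖s‖ ^ 2 + ‖μ‖ ^ 2) / 2) :=
          mul_le_mul_of_nonneg_left h12 (by positivity)
        have h16 : 0 ≤ δ * ‖s‖ ^ 2 := by positivity
        nlinarith
    _ = _ := by
        rw [Real.exp_add]
        ring

theorem one_sub_conj_re (s : ℂ) : (1 - conj s).re = 1 - s.re := by simp

/-- the completed function in terms of the L-function -/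
theorem X_eq {m : ℕ} (N : ℝ) (μ : Fin m → ℂ) (Λ : ℂ → ℂ) (s : ℂ) (h : ∀ j, (μ j).re < s.re) :
    (N : ℂ) ^ (s / 2) * Λ s = gam N μ s * LL μ Λ s := by
  unfold gam LL
  have h1 : (∏ j, Gammaℝ (s - μ j)) * ∏ j, (Gammaℝ (s - μ j))⁻¹ = 1 := by
    rw [← Finset.prod_mul_distrib]
    refine Finset.prod_eq_one fun j _ => ?_
    refine mul_inv_cancel₀ (Gammaℝ_ne_zero_of_re_pos ?_)
    rw [Complex.sub_re]
    linarith [h j]
  calc (N : ℂ) ^ (s / 2) * Λ s = (N : ℂ) ^ (s / 2) * Λ s * 1 := by ring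
    _ = _ := by rw [← h1]; ring

theorem t_SLW (h : S_GRW) : S_SLW := by
  intro m N μ Λ hS
  have hN := hS.N_pos
  have hfe : ∃ ε : ℂ, ‖ε‖ = 1 ∧ ∀ s : ℂ, (N : ℂ) ^ (s / 2) * Λ s =
      ε * conj ((N : ℂ) ^ ((1 - conj s) / 2) * Λ (1 - conj s)) := by
    obtain ⟨ε, hε, hf⟩ := hS.fe
    refine ⟨ε, hε, fun s => ?_⟩
    have hN0 : (N : ℂ) ≠ 0 := by exact_mod_cast hN.ne'
    have e1 : conj ((N : ℂ) ^ ((1 - conj s) / 2)) = (N : ℂ) ^ ((1 - s) / 2) := by
      have h1 : (N : ℂ).arg ≠ Real.pi := by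
        rw [Complex.arg_ofReal_of_nonneg hN.le]
        exact Real.pi_ne_zero.symm
      have h2 := Complex.cpow_conj (N : ℂ) ((1 - s) / 2) h1
      rw [Complex.conj_ofReal, map_div₀, map_sub, map_one, map_ofNat] at h2
      rw [h2, Complex.conj_conj]
    have e2 : (N : ℂ) ^ (s / 2) * (N : ℂ) ^ (1 / 2 - s) = (N : ℂ) ^ ((1 - s) / 2) := by
      rw [← Complex.cpow_add _ _ hN0]
      congr 1
      ring
    rw [map_mul, e1, ← e2]
    conv_lhs => rw [hf s]
    ring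
  refine ⟨?_, hfe⟩
  have hX : Slow fun s => ‖(N : ℂ) ^ (s / 2) * Λ s‖ := by
    obtain ⟨_, hgr⟩ := h m N μ Λ hS
    obtain ⟨C, K, hC, hK, hL⟩ := hgr 0
    have h1 : Slow fun s => ‖LL μ Λ s‖ := by
      refine (slow_expn K).mono C hC.le fun s hs => ?_
      refine (hL s (by linarith)).trans (mul_le_mul_of_nonneg_left ?_ hC.le)
      have h2 : (1 + ‖s‖) ^ K ≤ (Real.exp ‖s‖) ^ K :=
        Real.rpow_le_rpow (by positivity) (by have := Real.add_one_le_exp ‖s‖; linarith) hK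
      rw [← Real.exp_mul, mul_comm] at h2
      exact h2
    have h2 : Slow fun s => ∏ j, ‖Gammaℝ (s - μ j)‖ :=
      Slow.prod Finset.univ (fun j s => ‖Gammaℝ (s - μ j)‖) (fun j _ => slow_gammaR (μ j) (hS.re_lt j))
        (fun j s => norm_nonneg _)
    have h3 := ((slow_cpow N hN).mul h2
      (fun s => Finset.prod_nonneg fun j _ => norm_nonneg _)).mul h1 (fun s => norm_nonneg _)
    refine h3.mono 1 zero_le_one fun s hs => ?_
    rw [X_eq N μ Λ s (fun j => by have := hS.re_lt j; linarith)]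
    unfold gam
    rw [norm_mul, norm_mul, norm_prod, one_mul]
  intro δ hδ
  obtain ⟨K, hK, h1⟩ := hX (δ / 2) (by positivity)
  refine ⟨K * Real.exp δ, by positivity, fun z => ?_⟩
  obtain ⟨ε, hε, hf⟩ := hfe
  have hexp : 1 ≤ Real.exp δ := Real.one_le_exp hδ.le
  by_cases hz : 1 / 2 ≤ z.re
  · refine (h1 z hz).trans ?_
    have h2 : Real.exp (δ / 2 * ‖z‖ ^ 2) ≤ Real.exp (δ * ‖z‖ ^ 2) := by
      apply Real.exp_le_exp.mpr
      have : 0 ≤ δ * ‖z‖ ^ 2 := by positivity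
      nlinarith
    calc K * Real.exp (δ / 2 * ‖z‖ ^ 2) ≤ K * Real.exp (δ * ‖z‖ ^ 2) := mul_le_mul_of_nonneg_left h2 hK.le
      _ ≤ K * Real.exp δ * Real.exp (δ * ‖z‖ ^ 2) := by
        have h3 : 0 ≤ K * Real.exp (δ * ‖z‖ ^ 2) := by positivity
        nlinarith
  · push Not at hz
    have h2 := h1 (1 - conj z) (by rw [one_sub_conj_re]; linarith)
    have h3 : ‖(N : ℂ) ^ (z / 2) * Λ z‖ = ‖(N : ℂ) ^ ((1 - conj z) / 2) * Λ (1 - conj z)‖ := by
      rw [hf z, norm_mul, hε, one_mul, Complex.norm_conj]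
    rw [h3]
    refine h2.trans ?_
    rw [mul_assoc, ← Real.exp_add]
    refine mul_le_mul_of_nonneg_left (Real.exp_le_exp.mpr ?_) hK.le
    have h4 : ‖1 - conj z‖ ≤ 1 + ‖z‖ := by
      have := norm_sub_le (1 : ℂ) (conj z)
      rw [Complex.norm_conj, norm_one] at this
      exact this
    have h5 : ‖1 - conj z‖ ^ 2 ≤ (1 + ‖z‖) ^ 2 := pow_le_pow_left₀ (norm_nonneg _) h4 2
    have h6 : (1 + ‖z‖) ^ 2 ≤ 2 + 2 * ‖z‖ ^ 2 := by nlinarith [sq_nonneg (1 - ‖z‖)]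
    have h7 : δ / 2 * ‖1 - conj z‖ ^ 2 ≤ δ / 2 * (2 + 2 * ‖z‖ ^ 2) :=
      mul_le_mul_of_nonneg_left (h5.trans h6) (by positivity)
    linarith

theorem exists_eta {m : ℕ} (μ : Fin m → ℂ) (h : ∀ j, (μ j).re < 1 / 2) :
    ∃ η : ℝ, 0 < η ∧ η ≤ 1 / 2 ∧ ∀ j, (μ j).re + η ≤ 1 / 2 := by
  by_cases hne : Nonempty (Fin m)
  · obtain ⟨j0, hj0⟩ := Finite.exists_max (fun j => (μ j).re)
    refine ⟨min (1 / 2) (1 / 2 - (μ j0).re), lt_min (by norm_num) (by linarith [h j0]), min_le_left _ _,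
      fun j => ?_⟩
    have h1 := min_le_right (1 / 2 : ℝ) (1 / 2 - (μ j0).re)
    have h2 := hj0 j
    linarith
  · exact ⟨1 / 2, by norm_num, le_rfl, fun j => absurd ⟨j⟩ hne⟩

theorem t_OBJ (h1 : S_GAM) (h2 : S_GRW) (h3 : S_SLW) : S_OBJ := by
  intro m N μ Λ hS lam mu hl0 hm0 hl1 hls hms hinv hser
  obtain ⟨η, hη, hη2, hημ⟩ := exists_eta μ hS.re_lt
  obtain ⟨g1, g2⟩ := h1 m N μ η hS.N_pos hη hημ
  obtain ⟨g3, g4⟩ := h2 m N μ Λ hS
  obtain ⟨g5, g6⟩ := h3 m N μ Λ hS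
  have hN0 : (N : ℂ) ≠ 0 := by exact_mod_cast hS.N_pos.ne'
  refine ⟨{ L := LL μ Λ
            lam := lam
            mu := mu
            entire := g3
            lam_zero := hl0
            mu_zero := hm0
            lam_one := hl1
            lam_sum := hls
            mu_sum := hms
            inv := hinv
            ser := hser
            grow := g4
            X := fun s => (N : ℂ) ^ (s / 2) * Λ s
            γ := gam N μ
            η := η
            η_pos := hη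
            η_le := hη2
            diff := ?_
            slow := g5
            fe := g6
            γ_diff := fun s hs => (g1 s hs).1
            γ_ne := fun s hs => (g1 s hs).2
            eq := fun s hs => X_eq N μ Λ s (fun j => by have := hημ j; linarith)
            γ_ld := g2 }, rfl, rfl, rfl, rfl⟩
  have h4 : Differentiable ℂ fun s : ℂ => (N : ℂ) ^ (s / 2) := by
    intro s
    exact (differentiableAt_id.div_const (2 : ℂ)).const_cpow (Or.inl hN0)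
  exact h4.mul hS.entire

end Pool.Agent.Q182.GB
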